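import Pool.Agent.Lib.MP_e0f470_an.Main
import Pool.Agent.Lib.MP_e0f470_an.L1

set_option autoImplicit false

namespace Pool.Agent.Results.MP_e0f470_an.ContainsL1

open Pool.Agent.Lib.MP_e0f470_an

universe u v

/-- A Banach space with a basis that contains an isomorphic copy of `ℓ¹` (a bounded sequence
equivalent to the unit vector basis of `ℓ¹`) has renormings of arbitrarily small positive index. -/
theorem result {𝕜 : Type u} [RCLike 𝕜] {E : Type v} [NormedAddCommGroup E] [NormedSpace 𝕜 E]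
    [CompleteSpace E] (hb : Nonempty (SchauderBasis 𝕜 E))
    (h : ∃ (x : ℕ → E) (c : ℝ), 0 < c ∧ (∀ k, ‖x k‖ ≤ 1) ∧
      ∀ (s : Finset ℕ) (a : ℕ → 𝕜), c * ∑ k ∈ s, ‖a k‖ ≤ ‖∑ k ∈ s, a k • x k‖) :
    SmallIndexRenormings 𝕜 E := by
  obtain ⟨b⟩ := hb
  obtain ⟨x, c, hc, hx, hT⟩ := h
  have := separable_of_basis b
  exact smallIndex_of_hf b (hf_of_l1_seq x hc hx hT)

end Pool.Agent.Results.MP_e0f470_an.ContainsL1
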