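import Pool.Agent.Lib.MP_e0f470_an.RMain

set_option autoImplicit false

namespace Pool.Agent.Results.MP_e0f470_an.Counterexample

open Pool.Agent.Lib.MP_e0f470_an

/-- There are an infinite-dimensional Banach space with a Schauder basis and `n ≥ 1` such that
every equivalent norm has index at least `1 / n`. -/
theorem result (𝕜 : Type) [RCLike 𝕜] :
    ∃ (E : Type) (_ : NormedAddCommGroup E) (_ : NormedSpace 𝕜 E), CompleteSpace E ∧
      ¬ FiniteDimensional 𝕜 E ∧ Nonempty (SchauderBasis 𝕜 E) ∧ ∃ n : ℕ, 1 ≤ n ∧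
        ∀ (X : Type) [NormedAddCommGroup X] [NormedSpace 𝕜 X], Nonempty (E ≃L[𝕜] X) →
          1 / (n : ℝ) ≤ basisIndex 𝕜 X :=
  Rob.exists_counterexample 𝕜

end Pool.Agent.Results.MP_e0f470_an.Counterexample
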