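import Pool.Agent.Lib.MP_e0f470_an.Main
import Pool.Agent.Lib.MP_e0f470_an.LpMain
import Pool.Agent.Lib.MP_e0f470_an.LpInst

set_option autoImplicit false

namespace Pool.Agent.Results.MP_e0f470_an.LpSum

open Pool.Agent.Lib.MP_e0f470_an

universe u v w

/-- A Banach space with a basis that is isomorphic to the `ℓ^p` sum (`1 ≤ p < ∞`) or to the `c₀`
sum (`p = ∞`) of finite dimensional spaces has renormings of arbitrarily small positive index. -/
theorem result {𝕜 : Type u} [RCLike 𝕜] {E : Type v} [NormedAddCommGroup E] [NormedSpace 𝕜 E]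
    [CompleteSpace E] (hb : Nonempty (SchauderBasis 𝕜 E)) (p : ENNReal) [Fact (1 ≤ p)]
    (F : ℕ → Type w) [∀ k, NormedAddCommGroup (F k)] [∀ k, NormedSpace 𝕜 (F k)]
    [∀ k, FiniteDimensional 𝕜 (F k)]
    (h : ∃ (e : E →L[𝕜] lp F p) (c : ℝ), 0 < c ∧ (∀ x, c * ‖x‖ ≤ ‖e x‖) ∧
      ∀ y : lp F p, (∃ x, e x = y) ↔ Filter.Tendsto (fun k => ‖y k‖) Filter.atTop (nhds 0)) :
    SmallIndexRenormings 𝕜 E := by
  obtain ⟨b⟩ := hb
  obtain ⟨e, c, hc, he, hr⟩ := h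
  obtain ⟨q, P, hP⟩ := exists_lpDec e hc he hr
  exact smallIndex_of_hf b (hf_of_lpDec hP)

end Pool.Agent.Results.MP_e0f470_an.LpSum
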