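import Pool.Agent.Lib.MP_e0f470_an.Main

set_option autoImplicit false

namespace Pool.Agent.Results.MP_e0f470_an.Reduction

open Pool.Agent.Lib.MP_e0f470_an

universe u v w

/-- If for every `K` some finite dimensional normed space `G` does not factor with constant `K`
through some renorming `X` of `E`, then `E` has renormings of arbitrarily small positive index. -/
theorem result {𝕜 : Type u} [RCLike 𝕜] {E : Type v} [NormedAddCommGroup E] [NormedSpace 𝕜 E]
    [CompleteSpace E] (hb : Nonempty (SchauderBasis 𝕜 E))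
    (h : ∀ K : ℝ, ∃ (X : Type v) (_ : NormedAddCommGroup X) (_ : NormedSpace 𝕜 X)
      (G : Type w) (_ : NormedAddCommGroup G) (_ : NormedSpace 𝕜 G),
      Nonempty (E ≃L[𝕜] X) ∧ FiniteDimensional 𝕜 G ∧
      ∀ (a : G →L[𝕜] X) (b : X →L[𝕜] G), b ∘L a = ContinuousLinearMap.id 𝕜 G → K < ‖a‖ * ‖b‖) :
    SmallIndexRenormings 𝕜 E :=
  hb.elim fun b => smallIndex_of_hf b (hf_of_normed h)

end Pool.Agent.Results.MP_e0f470_an.Reduction
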